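import Pool.Agent.H414_LQ.Retr

/-!
# The spaces of long knots and of framed long knots in `ℝ³` are not retracts of `Z_3`, even rationally

Let `F` be the connected sum of the knots `5_2`, `4_1`, `3_1`.  Moving small copies of the summands
through each other gives two loops `α`, `β` of framed long knots at `F`.  The fundamental group of the
space of long knots at `F` acts on the knot group `G` of `F`, preserving the meridian and, up to powers
of the meridian, the longitude.  For suitable roots `η, ω, ζ` of the three Alexander polynomials, the
group `G` has a unipotent-by-diagonal representation of dimension 5 and three cocycles, which are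
transformed by the action through a homomorphism `Φ` to a Heisenberg group over a rational vector
space, and `Φ(α)`, `Φ(β)` do not commute.  On the other hand, homomorphisms from fundamental groups to
such a Heisenberg group, up to conjugation, are described by the singular simplicial set, and this
description is invariant under maps which are isomorphisms of rational homology; it follows that
in a rational retract of a space with commutative fundamental groups every such homomorphism has a
commutative image.
-/

set_option autoImplicit false

namespace Pool.Agent.Results.MP_fbf562_gt.RationalNotRetract

open Pool.Agent.H414_LK Pool.Agent.H414_LQ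

/-- Neither the space of long knots in `ℝ³` nor the space of framed long knots is a retract of
`Z_3 = Ω² Σ² Y_3`, integrally or rationally, for any choice of base points.  The same holds for every
loop space, and for every space with commutative fundamental groups, in place of `Z_3`. -/
theorem result :
    (∀ (c : ∀ q : {q : ℕ // 2 ≤ q}, Conf (3 - 1) q) (y₀ : Y 3 c),
      NoRetract (LongKnot 3) (Z 3 c y₀) ∧ NoRetract (FramedLongKnot 3) (Z 3 c y₀)) ∧
    (∀ (X : Type) [TopologicalSpace X] (x : X),
      NoRetract (LongKnot 3) (Loop X x) ∧ NoRetract (FramedLongKnot 3) (Loop X x)) ∧
    ∀ (T : Type) [TopologicalSpace T],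
      (∀ (z : T) (a b : Path.Homotopic.Quotient z z), a.trans b = b.trans a) →
        NoRetract (LongKnot 3) T ∧ NoRetract (FramedLongKnot 3) T := by
  have hL : ∀ (X : Type) [TopologicalSpace X] (x : X),
      NoRetract (LongKnot 3) (Loop X x) ∧ NoRetract (FramedLongKnot 3) (Loop X x) :=
    fun X _ x => noRetract_of_comm _ (comm_of_retract (X := Loop X x)
      (ContinuousMap.id _) (ContinuousMap.id _) (ContinuousMap.Homotopic.refl _))
  exact ⟨fun c y₀ => hL (Loop (Susp2 (Y 3 c) y₀) (Susp2.pt (Y 3 c) y₀)) (Path.refl _), hL,
    fun T _ hT => noRetract_of_comm T hT⟩

end Pool.Agent.Results.MP_fbf562_gt.RationalNotRetract
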